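import Pool.Agent.Helper2.RG.Base

open scoped Pointwise NumberField
open NumberField Pool.RG

namespace Pool.Agent.Helper52.RG

/-- The discrete topology on the ring of all algebraic integers (local instance). -/
@[instance_reducible] def topB : TopologicalSpace (𝓞 Qb) := ⊥

attribute [local instance] topB

local instance : DiscreteTopology (𝓞 Qb) := ⟨rfl⟩

theorem coe_smul (g : GQ) (x : 𝓞 Qb) : ((g • x : 𝓞 Qb) : Qb) = g (x : Qb) := rfl

theorem contSMul (K : IntermediateField ℚ Qb) : ContinuousSMul (GF K) (𝓞 Qb) := by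
  rw [continuousSMul_iff_stabilizer_isOpen]
  intro x
  have h : IsOpen (MulAction.stabilizer GQ (x : Qb) : Set GQ) := stabilizer_isOpen_of_isIntegral _
  have h2 := h.preimage (continuous_subtype_val (p := fun g => g ∈ GF K))
  have h3 : (MulAction.stabilizer (GF K) x : Set (GF K)) =
      Subtype.val ⁻¹' (MulAction.stabilizer GQ (x : Qb) : Set GQ) := by
    ext g
    constructor
    · intro hg
      have hg' : g • x = x := hg
      change (g.1 : GQ) (x : Qb) = (x : Qb)
      rw [← coe_smul]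
      exact congrArg _ hg'
    · intro hg
      have hg' : (g.1 : GQ) (x : Qb) = (x : Qb) := hg
      change g • x = x
      apply NumberField.RingOfIntegers.ext
      exact hg'
  rw [h3]
  exact h2

theorem compGF (K : IntermediateField ℚ Qb) : CompactSpace (GF K) :=
  isCompact_iff_compactSpace.1 (InfiniteGalois.fixingSubgroup_isClosed K).isCompact

theorem mem_of_fixed (K : IntermediateField ℚ Qb) (x : 𝓞 Qb) (h : ∀ g : GF K, g • x = x) : (x : Qb) ∈ K := by
  rw [← InfiniteGalois.fixedField_fixingSubgroup K]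
  rintro ⟨g, hg⟩
  have := congrArg (algebraMap (𝓞 Qb) Qb) (h ⟨g, hg⟩)
  exact this

theorem fixed_of_mem (K : IntermediateField ℚ Qb) (x : 𝓞 Qb) (h : (x : Qb) ∈ K) (g : GF K) : g • x = x := by
  apply NumberField.RingOfIntegers.ext
  exact (IntermediateField.mem_fixingSubgroup_iff K g.1).1 g.2 _ h

noncomputable abbrev AA (K : IntermediateField ℚ Qb) : Subring (𝓞 Qb) := FixedPoints.subring (𝓞 Qb) (GF K)

instance isInv (K : IntermediateField ℚ Qb) : Algebra.IsInvariant (AA K) (𝓞 Qb) (GF K) where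
  isInvariant b hb := ⟨⟨b, hb⟩, rfl⟩

theorem tProf : StProf := by
  intro K
  have := contSMul K
  have := compGF K
  constructor
  · intro P Q hP hQ h
    have hP' : P.IsPrime := hP.isPrime
    have hQ' : Q.IsPrime := hQ.isPrime
    have hu : P.under (AA K) = Q.under (AA K) := by
      ext a
      exact h a.1 (mem_of_fixed K a.1 a.2)
    obtain ⟨g, hg⟩ := Algebra.IsInvariant.exists_smul_of_under_eq_of_profinite (G := GF K) P Q hu
    exact ⟨g.1, g.2, hg.symm⟩
  · intro P hP τ hτ h
    have hP' : P.IsPrime := hP.isPrime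
    have hτ' : τ • P = P := hτ
    let p : Ideal (AA K) := P.under (AA K)
    have : P.LiesOver p := ⟨rfl⟩
    let e : (𝓞 Qb ⧸ P) ≃+* (𝓞 Qb ⧸ P) := Ideal.quotientEquiv P P (MulSemiringAction.toRingEquiv GQ (𝓞 Qb) τ) hτ'.symm
    let σ : (𝓞 Qb ⧸ P) ≃ₐ[AA K ⧸ p] (𝓞 Qb ⧸ P) := AlgEquiv.ofRingEquiv (f := e) (by
      intro r
      obtain ⟨r, rfl⟩ := Ideal.Quotient.mk_surjective r
      change Ideal.Quotient.mk P (τ • r.1) = Ideal.Quotient.mk P r.1
      rw [Ideal.Quotient.eq]
      exact h r.1 (mem_of_fixed K r.1 r.2))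
    obtain ⟨g, hg⟩ := Ideal.Quotient.stabilizerHom_surjective_of_profinite (G := GF K) p P σ
    refine ⟨g.1.1, ⟨g.1.2, g.2⟩, ?_⟩
    intro x
    have hx := DFunLike.congr_fun hg (Ideal.Quotient.mk P x)
    have h1 : Ideal.Quotient.mk P (g.1.1 • x) = Ideal.Quotient.mk P (τ • x) := hx
    exact Ideal.Quotient.eq.1 h1

end Pool.Agent.Helper52.RG
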