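import Pool.Agent.Helper2.RG.St

open scoped Pointwise NumberField
open NumberField Pool.RG

namespace Pool.Agent.Helper52.RG

/-- In a finite cyclic group whose order is divisible by `l`, the `l`-th powers have index `l`. -/
theorem card_quot_pow {G : Type} [CommGroup G] [Finite G] [IsCyclic G] (l : ℕ)
    (h : l ∣ Nat.card G) : (powMonoidHom l : G →* G).range.index = l := by
  rw [IsCyclic.index_powMonoidHom_range, Nat.gcd_eq_right h]

theorem index_ker_surj {G H : Type} [Group G] [Group H] (f : G →* H) (hf : Function.Surjective f) :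
    f.ker.index = Nat.card H := by
  rw [Subgroup.index_ker, MonoidHom.range_eq_top.2 hf, Subgroup.card_top]

/-- Abstract form: a subgroup `N` mapping into `S i` for all `i`, where `G` surjects onto the product of the `H i / S i`. -/
theorem index_pi {G ι : Type} [Fintype ι] [Group G] (H : ι → Type) [∀ i, CommGroup (H i)] (S : ∀ i, Subgroup (H i))
    (f : ∀ i, G →* H i) (N : Subgroup G) (hN : ∀ i, ∀ x ∈ N, f i x ∈ S i)
    (hs : ∀ z : ∀ i, H i, ∃ x, ∀ i, (z i)⁻¹ * f i x ∈ S i) (l : ℕ) (hl : ∀ i, (S i).index = l)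
    (hne : N.index ≠ 0) : l ^ Fintype.card ι ≤ N.index := by
  let φ : G →* (∀ i, H i ⧸ S i) := MonoidHom.pi fun i => (QuotientGroup.mk' (S i)).comp (f i)
  have hφ : Function.Surjective φ := by
    intro z
    choose w hw using fun i => QuotientGroup.mk'_surjective (S i) (z i)
    obtain ⟨x, hx⟩ := hs w
    refine ⟨x, ?_⟩
    funext i
    rw [← hw i]
    exact (QuotientGroup.eq.2 (hx i)).symm
  have hle : N ≤ φ.ker := by
    intro x hx
    rw [MonoidHom.mem_ker]
    funext i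
    exact (QuotientGroup.eq_one_iff _).2 (hN i x hx)
  have hidx : φ.ker.index = l ^ Fintype.card ι := by
    rw [index_ker_surj φ hφ, Nat.card_pi]
    have : ∀ i, Nat.card (H i ⧸ S i) = l := fun i => hl i
    simp [this]
  rw [← hidx]
  exact Nat.le_of_dvd (Nat.pos_of_ne_zero hne) (Subgroup.index_dvd_of_le hle)

theorem tIndex (hR : StRam) : StIndex := by
  intro K L _ _ _ _ _ _ l hl hdeg T hT hT1 hsurj hne
  classical
  have hmax : ∀ q ∈ T, q.IsMaximal := by
    intro q hq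
    obtain ⟨P, hP, hPq, -⟩ := hT q hq
    rw [← hPq]
    exact Ideal.isMaximal_comap_of_isIntegral_of_isMaximal P
  have key := index_pi (G := (𝓞 K)ˣ) (ι := T) (fun q => (𝓞 K ⧸ q.1)ˣ)
    (fun q => (powMonoidHom l : (𝓞 K ⧸ q.1)ˣ →* (𝓞 K ⧸ q.1)ˣ).range)
    (fun q => Units.map (Ideal.Quotient.mk q.1).toMonoidHom) (Nm K L).range ?_ ?_ l ?_ hne
  · rwa [Fintype.card_coe] at key
  · rintro q _ ⟨u, rfl⟩
    obtain ⟨y, hy⟩ := hR K L l hl hdeg q.1 (hT q.1 q.2) u
    exact ⟨y, hy.symm⟩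
  · intro z
    obtain ⟨u, hu⟩ := hsurj (fun q => if h : q ∈ T then z ⟨q, h⟩ else 1)
    refine ⟨u, fun q => ?_⟩
    obtain ⟨y, hy⟩ := hu q.1 q.2
    rw [dif_pos q.2] at hy
    refine ⟨y, ?_⟩
    rw [hy]
    simp
  · intro q
    have hm := hmax q.1 q.2
    have hq0 : q.1 ≠ ⊥ := Ring.ne_bot_of_isMaximal_of_not_isField hm (RingOfIntegers.not_isField K)
    have : Finite (𝓞 K ⧸ q.1) := Ideal.finiteQuotientOfFreeOfNeBot q.1 hq0
    let _ : Field (𝓞 K ⧸ q.1) := Ideal.Quotient.field q.1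
    have h2 : Nat.card (𝓞 K ⧸ q.1)ˣ = Nat.card (𝓞 K ⧸ q.1) - 1 := Nat.card_units _
    exact card_quot_pow l (by rw [h2]; exact hT1 q.1 q.2)

end Pool.Agent.Helper52.RG
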